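import Pool.Agent.Lib_MP_02aa3f_lb.Transfer

/-! A lattice-catching set of area close to `1` is not concentrated in a disc: lower bounds above
`1` for the area of lattice-catching sets with small tails. -/

set_option autoImplicit false

open MeasureTheory Metric

namespace Pool.Agent.Results.MP_02aa3f_co.Concentrated

/-- the Euclidean plane -/
abbrev Plane := EuclideanSpace ℝ (Fin 2)

/-- points of the integer lattice -/
def IsLatticePoint (z : Plane) : Prop := ∃ m n : ℤ, z 0 = m ∧ z 1 = n

/-- `E` is lattice-catching: every congruent copy of `E` contains a lattice point -/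
def LatticeCatching (E : Set Plane) : Prop :=
  ∀ ρ : Plane ≃ᵢ Plane, ∃ z ∈ ρ '' E, IsLatticePoint z

lemma LatticeCatching.mono {E E' : Set Plane} (h : E ⊆ E') (hE : LatticeCatching E) :
    LatticeCatching E' := fun ρ => by
  obtain ⟨z, hz, hl⟩ := hE ρ
  exact ⟨z, Set.image_mono h hz, hl⟩

lemma key {E : Set Plane} (hE : NullMeasurableSet E volume) (hc : LatticeCatching E) (x : Plane)
    {R : ℝ} (hR : 1 ≤ R) :
    ENNReal.ofReal (1 + 1 / (3 * 10 ^ 7 * R ^ 4)) ≤ volume E ∨
      ENNReal.ofReal (1 / (3 * 10 ^ 7 * R ^ 4)) ≤ volume (E \ closedBall x R) := by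
  set E' := toMeasurable volume E with hE'
  have hm : MeasurableSet E' := measurableSet_toMeasurable _ _
  have hsub : E ⊆ E' := subset_toMeasurable _ _
  have hae : E' =ᵐ[volume] E := hE.toMeasurable_ae_eq
  have h1 : volume E' = volume E := measure_toMeasurable _
  have h2 : volume (E' \ closedBall x R) = volume (E \ closedBall x R) :=
    measure_congr (hae.diff (ae_eq_refl _))
  have h3 : LatLB.Gg (LatLB.pull x E') R = LatLB.pull x (E' \ closedBall x R) := by
    ext z
    change (LatLB.phi z + x ∈ E' ∧ R < ‖z‖) ↔ (LatLB.phi z + x ∈ E' ∧ LatLB.phi z + x ∉ closedBall x R)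
    rw [mem_closedBall_iff_norm, add_sub_cancel_right, LinearIsometryEquiv.norm_map, not_le]
  have h4 := LatLB.main (LatLB.measurableSet_pull x hm) (LatLB.catch_pull x (hc.mono hsub)) hR
  rw [h3, LatLB.volume_pull x hm, LatLB.volume_pull x (hm.diff isClosed_closedBall.measurableSet),
    h1, h2] at h4
  exact h4

/-- Let `E` be a Lebesgue measurable lattice-catching set. For every disc of radius `R ≥ 1`, either
`E` has area at least `1 + 1 / (3 · 10 ^ 7 R ^ 4)`, or the part of `E` outside the disc has area at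
least `1 / (3 · 10 ^ 7 R ^ 4)`. -/
theorem result : ∀ E : Set Plane, NullMeasurableSet E volume → LatticeCatching E →
    ∀ (x : Plane) (R : ℝ), 1 ≤ R → ENNReal.ofReal (1 + 1 / (3 * 10 ^ 7 * R ^ 4)) ≤ volume E ∨
      ENNReal.ofReal (1 / (3 * 10 ^ 7 * R ^ 4)) ≤ volume (E \ closedBall x R) :=
  fun _ hE hc x _ hR => key hE hc x hR

end Pool.Agent.Results.MP_02aa3f_co.Concentrated
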