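import Pool.Agent.Lib_MP_02aa3f_lb.ConvexPart
import Pool.Agent.Lib_MP_02aa3f_lb.Transfer

/-! Lattice-catching sets which contain a convex set of area `η`, up to a small area, have area
bounded away from `1`. -/

set_option autoImplicit false

open MeasureTheory Metric

namespace Pool.Agent.Results.MP_02aa3f_co.ConvexPart

/-- the Euclidean plane -/
abbrev Plane := EuclideanSpace ℝ (Fin 2)

/-- points of the integer lattice -/
def IsLatticePoint (z : Plane) : Prop := ∃ m n : ℤ, z 0 = m ∧ z 1 = n

/-- `E` is lattice-catching: every congruent copy of `E` contains a lattice point -/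
def LatticeCatching (E : Set Plane) : Prop :=
  ∀ ρ : Plane ≃ᵢ Plane, ∃ z ∈ ρ '' E, IsLatticePoint z

lemma LatticeCatching.mono {E E' : Set Plane} (h : E ⊆ E') (hE : LatticeCatching E) :
    LatticeCatching E' := fun ρ => by
  obtain ⟨z, hz, hl⟩ := hE ρ
  exact ⟨z, Set.image_mono h hz, hl⟩

/-- For every `η > 0` there is `c > 0` such that a Lebesgue measurable lattice-catching set `E`
which contains a convex set `C` of area at least `η`, except for a part of `C` of area at most
`c`, has area at least `1 + c`. -/
theorem result : ∀ η : ℝ, 0 < η → ∃ c : ℝ, 0 < c ∧ ∀ E C : Set Plane,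
    NullMeasurableSet E volume → LatticeCatching E → Convex ℝ C →
    ENNReal.ofReal η ≤ volume C → volume (C \ E) ≤ ENNReal.ofReal c →
      ENNReal.ofReal (1 + c) ≤ volume E := by
  intro η hη
  obtain ⟨c, hc0, h⟩ := LatLB.convex_part hη
  refine ⟨c, hc0, fun E C _ hc hC hv hCE => ?_⟩
  set E' := toMeasurable volume E with hE'
  have hm : MeasurableSet E' := measurableSet_toMeasurable _ _
  have hsub : E ⊆ E' := subset_toMeasurable _ _
  have h1 : volume E' = volume E := measure_toMeasurable _
  have hCn : NullMeasurableSet C volume := hC.nullMeasurableSet volume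
  have h2 := h (LatLB.pull 0 E') (LatLB.pull 0 C) (LatLB.measurableSet_pull 0 hm)
    (LatLB.catch_pull 0 (hc.mono hsub)) ?_ ?_ ?_
  · rwa [LatLB.volume_pull 0 hm, h1] at h2
  · have h3 : LatLB.pull 0 C = LatLB.phi.toLinearEquiv.toLinearMap ⁻¹' C := by
      ext z
      change LatLB.phi z + 0 ∈ C ↔ LatLB.phi z ∈ C
      rw [add_zero]
    rw [h3]
    exact hC.linear_preimage _
  · have h4 : volume (LatLB.pull 0 C) = volume C := (LatLB.mp_pull 0).measure_preimage hCn
    rwa [h4]
  · have h5 : volume (LatLB.pull 0 (C \ E')) = volume (C \ E') :=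
      (LatLB.mp_pull 0).measure_preimage (hCn.diff hm.nullMeasurableSet)
    have h6 : LatLB.pull 0 C \ LatLB.pull 0 E' = LatLB.pull 0 (C \ E') := rfl
    rw [h6, h5]
    exact (measure_mono (Set.sdiff_subset_sdiff_right hsub)).trans hCE

end Pool.Agent.Results.MP_02aa3f_co.ConvexPart
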