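import Pool.Agent.Lib_MP_02aa3f_lb.Transfer

/-! Lattice-catching sets of bounded perimeter have area bounded away from `1`. -/

set_option autoImplicit false

open MeasureTheory Metric

namespace Pool.Agent.Results.MP_02aa3f_co.FinitePerimeter

/-- the Euclidean plane -/
abbrev Plane := EuclideanSpace ℝ (Fin 2)

/-- points of the integer lattice -/
def IsLatticePoint (z : Plane) : Prop := ∃ m n : ℤ, z 0 = m ∧ z 1 = n

/-- `E` is lattice-catching: every congruent copy of `E` contains a lattice point -/
def LatticeCatching (E : Set Plane) : Prop :=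
  ∀ ρ : Plane ≃ᵢ Plane, ∃ z ∈ ρ '' E, IsLatticePoint z

/-- for each vector `h`, the part of `B` which the translation by `h` moves out of `B` has area at
most `P * ‖h‖`; this holds for every set of perimeter at most `P` -/
def PerimeterBound (P : ℝ) (B : Set Plane) : Prop :=
  ∀ h : Plane, volume {x | x ∈ B ∧ x + h ∉ B} ≤ ENNReal.ofReal (P * ‖h‖)

lemma LatticeCatching.mono {E E' : Set Plane} (h : E ⊆ E') (hE : LatticeCatching E) :
    LatticeCatching E' := fun ρ => by
  obtain ⟨z, hz, hl⟩ := hE ρ
  exact ⟨z, Set.image_mono h hz, hl⟩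

/-- modifications on a null set keep the perimeter bound -/
lemma PerimeterBound.congr {P : ℝ} {B B' : Set Plane} (h : B' =ᵐ[volume] B)
    (hP : PerimeterBound P B) : PerimeterBound P B' := by
  intro v
  refine le_trans (le_of_eq (measure_congr ?_)) (hP v)
  have h1 : (fun x => x + v) ⁻¹' B' =ᵐ[volume] (fun x => x + v) ⁻¹' B :=
    (measurePreserving_add_right volume v).quasiMeasurePreserving.preimage_ae_eq h
  exact h.diff h1

lemma key (P : ℝ) : ∃ c : ℝ, 0 < c ∧ ∀ E B : Set Plane, NullMeasurableSet E volume →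
    NullMeasurableSet B volume → LatticeCatching E → B ⊆ E → PerimeterBound P B →
      ENNReal.ofReal (1 + c) ≤ volume E ∨ ENNReal.ofReal c ≤ volume (E \ B) := by
  obtain ⟨c, hc0, hmain⟩ := LatLB.perim (max P 0) (le_max_right _ _)
  refine ⟨c, hc0, fun E B hE hB hc hBE hP => ?_⟩
  set E' := toMeasurable volume E with hE'
  have hm : MeasurableSet E' := measurableSet_toMeasurable _ _
  have hsub : E ⊆ E' := subset_toMeasurable _ _
  have hae : E' =ᵐ[volume] E := hE.toMeasurable_ae_eq
  have h1 : volume E' = volume E := measure_toMeasurable _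
  obtain ⟨B', hB'sub, hB'm, hB'⟩ := hB.exists_measurable_subset_ae_eq
  have h2 : volume (E' \ B') = volume (E \ B) := measure_congr (hae.diff hB')
  have hP' := hP.congr hB'
  have h4 := hmain (LatLB.pull 0 E') (LatLB.pull 0 B') (LatLB.measurableSet_pull 0 hm)
    (LatLB.measurableSet_pull 0 hB'm) (Set.preimage_mono ((hB'sub.trans hBE).trans hsub))
    (LatLB.catch_pull 0 (hc.mono hsub)) ?_
  · have h5 : LatLB.pull 0 E' \ LatLB.pull 0 B' = LatLB.pull 0 (E' \ B') := rfl
    rw [h5, LatLB.volume_pull 0 hm, LatLB.volume_pull 0 (hm.diff hB'm), h1, h2] at h4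
    exact h4
  · intro h
    have h6 : LatLB.Ot (LatLB.pull 0 B') h = LatLB.pull 0 {x | x ∈ B' ∧ x + LatLB.phi h ∉ B'} := by
      ext z
      change (LatLB.phi z + 0 ∈ B' ∧ LatLB.phi (z + h) + 0 ∉ B') ↔
        (LatLB.phi z + 0 ∈ B' ∧ LatLB.phi z + 0 + LatLB.phi h ∉ B')
      rw [map_add, add_zero, add_zero]
    have h7 : MeasurableSet {x | x ∈ B' ∧ x + LatLB.phi h ∉ B'} :=
      hB'm.inter (hB'm.compl.preimage (measurable_add_const _))
    rw [h6, LatLB.volume_pull 0 h7]
    refine (hP' (LatLB.phi h)).trans (ENNReal.ofReal_le_ofReal ?_)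
    rw [LinearIsometryEquiv.norm_map]
    exact mul_le_mul_of_nonneg_right (le_max_left _ _) (norm_nonneg _)

/-- For every `P` there is `c > 0` such that, if `E` is a Lebesgue measurable lattice-catching set
and `B` a Lebesgue measurable subset of `E` satisfying the perimeter bound with constant `P`, then
`E` has area at least `1 + c` or `E \ B` has area at least `c`. In particular (`B = E`) the
lattice-catching sets satisfying the perimeter bound with constant `P` have area at least
`1 + c`. -/
theorem result : ∀ P : ℝ, ∃ c : ℝ, 0 < c ∧ ∀ E B : Set Plane, NullMeasurableSet E volume →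
    NullMeasurableSet B volume → LatticeCatching E → B ⊆ E → PerimeterBound P B →
      ENNReal.ofReal (1 + c) ≤ volume E ∨ ENNReal.ofReal c ≤ volume (E \ B) :=
  key

end Pool.Agent.Results.MP_02aa3f_co.FinitePerimeter
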