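import Pool.Agent.Lib_MP_02aa3f_co.Data

/-! A measurable set of area less than `4 / 3` every congruent copy of which contains a point of
the integer lattice. -/

set_option autoImplicit false

open MeasureTheory

namespace Pool.Agent.Results.MP_02aa3f_co.SmallSet

/-- the Euclidean plane -/
abbrev Plane := EuclideanSpace ℝ (Fin 2)

/-- points of the integer lattice -/
def IsLatticePoint (z : Plane) : Prop := ∃ m n : ℤ, z 0 = m ∧ z 1 = n

/-- `E` is lattice-catching: every congruent copy of `E` contains a lattice point -/
def LatticeCatching (E : Set Plane) : Prop :=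
  ∀ ρ : Plane ≃ᵢ Plane, ∃ z ∈ ρ '' E, IsLatticePoint z

/-- There is a measurable lattice-catching set of area at most `1.3128`, less than the area `4 / 3`
of the optimal convex set. -/
theorem result : ∃ E : Set Plane, MeasurableSet E ∧ LatticeCatching E ∧
    volume E ≤ ENNReal.ofReal 1.3128 := by
  refine ⟨LatCatch.setOf' (2 * 500000) LatCatch.starPieces,
    LatCatch.measurable_setOf' _ _, ?_, ?_⟩
  · exact LatCatch.catching_of_check LatCatch.star_pos (by norm_num) (by norm_num)
      LatCatch.star_cert
  · refine (LatCatch.volume_le (by norm_num) LatCatch.star_pos LatCatch.star_lo ?_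
      LatCatch.star_cov).trans ?_
    · decide
    · rw [LatCatch.star_tot]
      apply ENNReal.ofReal_le_ofReal
      norm_num

end Pool.Agent.Results.MP_02aa3f_co.SmallSet
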